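import Pool.Agent.W488.IX.Stm

/-!
Mollification of Lipschitz functions.
-/

set_option autoImplicit false

namespace Pool.Agent.W407.IX.Mol1

open MeasureTheory Set Filter Topology Metric
open scoped ContDiff Convolution
open Pool.Agent.W488.IW Pool.Agent.W488.IX

theorem haar : (volume : Measure (ℂ × ℂ)).IsAddHaarMeasure := by
  rw [Measure.volume_eq_prod]
  exact Measure.prod.instIsAddHaarMeasure _ _

theorem main : S_MOL1 := by
  intro G _ _ _ f K hf ρ
  have hH := haar
  have : CompleteSpace G := FiniteDimensional.complete ℝ G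
  have hfc : Continuous f := hf.continuous
  have hρc : Continuous (ρ.normed (volume : Measure (ℂ × ℂ))) := ρ.continuous_normed
  have hρi : Integrable (ρ.normed (volume : Measure (ℂ × ℂ))) := ρ.integrable_normed
  have hcs : HasCompactSupport (ρ.normed (volume : Measure (ℂ × ℂ))) := ρ.hasCompactSupport_normed
  have hconv : (fun F : ℂ × ℂ => ∫ y : ℂ × ℂ, ρ.normed volume y • f (F - y)) =
      (ρ.normed volume ⋆[ContinuousLinearMap.lsmul ℝ ℝ, volume] f : ℂ × ℂ → G) := rfl
  have hderiv : ∀ F : ℂ × ℂ, Integrable (fun y : ℂ × ℂ => ρ.normed volume y • fderiv ℝ f (F - y)) ∧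
      HasFDerivAt (fun F : ℂ × ℂ => ∫ y : ℂ × ℂ, ρ.normed volume y • f (F - y))
        (∫ y : ℂ × ℂ, ρ.normed volume y • fderiv ℝ f (F - y)) F := by
    intro F
    have : ProperSpace (ℂ × ℂ →L[ℝ] G) := FiniteDimensional.proper ℝ _
    borelize (ℂ × ℂ →L[ℝ] G)
    refine hasFDerivAt_integral_of_dominated_loc_of_lip
      (F := fun F y => ρ.normed volume y • f (F - y)) (s := univ)
      (bound := fun y => K * ρ.normed volume y) univ_mem ?_ ?_ ?_ ?_ ?_ ?_
    · refine Eventually.of_forall fun x => ?_
      exact (hρc.smul (hfc.comp (continuous_const.sub continuous_id))).aestronglyMeasurable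
    · exact (hρc.smul (hfc.comp (continuous_const.sub continuous_id))).integrable_of_hasCompactSupport
        (hcs.smul_right)
    · refine hρc.aestronglyMeasurable.smul ?_
      exact ((measurable_fderiv ℝ f).comp (measurable_const.sub measurable_id)).aestronglyMeasurable
    · refine Eventually.of_forall fun y => ?_
      refine LipschitzOnWith.of_dist_le_mul fun x _ x' _ => ?_
      have h1 : 0 ≤ ρ.normed (volume : Measure (ℂ × ℂ)) y := ρ.nonneg_normed y
      have h2 : 0 ≤ (K : ℝ) * ρ.normed (volume : Measure (ℂ × ℂ)) y := by positivity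
      rw [dist_smul₀, Real.norm_of_nonneg h1, Real.coe_nnabs, abs_of_nonneg h2]
      have h3 := hf.dist_le_mul (x - y) (x' - y)
      rw [dist_sub_right] at h3
      calc _ ≤ ρ.normed (volume : Measure (ℂ × ℂ)) y * (K * dist x x') :=
            mul_le_mul_of_nonneg_left h3 h1
        _ = _ := by ring
    · exact hρi.const_mul _
    · have h1 : ∀ᵐ z ∂(volume : Measure (ℂ × ℂ)), DifferentiableAt ℝ f z := hf.ae_differentiableAt
      have h2 : ∀ᵐ y ∂(volume : Measure (ℂ × ℂ)), DifferentiableAt ℝ f (F - y) :=
        (Measure.measurePreserving_sub_left (volume : Measure (ℂ × ℂ)) F).quasiMeasurePreserving.ae h1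
      filter_upwards [h2] with y hy
      have h3 : HasFDerivAt (fun x : ℂ × ℂ => f (x - y)) (fderiv ℝ f (F - y)) F := by
        have h4 := hy.hasFDerivAt.comp F ((hasFDerivAt_id F).sub_const y)
        exact h4
      exact h3.const_smul _
  refine ⟨?_, fun F => (hderiv F).2, fun F => (hderiv F).1, ?_⟩
  · rw [hconv]
    exact hcs.contDiff_convolution_left _ ρ.contDiff_normed (hfc.locallyIntegrable)
  · intro F
    have h := ρ.dist_normed_convolution_le (μ := (volume : Measure (ℂ × ℂ))) (g := f) (x₀ := F)
      (ε := K * ρ.rOut) hfc.aestronglyMeasurable (by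
        intro x hx
        calc dist (f x) (f F) ≤ K * dist x F := hf.dist_le_mul x F
          _ ≤ K * ρ.rOut := mul_le_mul_of_nonneg_left (mem_ball.1 hx).le K.coe_nonneg)
    rw [dist_eq_norm] at h
    exact h

end Pool.Agent.W407.IX.Mol1
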